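import Pool.Agent.Helper14.LK.St
import Pool.Agent.Helper14.LK.Basic

/-!
Project LK (MP_58b586_gt), module PO0: Poincaré lemma for one-forms depending smoothly on a parameter.
-/

set_option autoImplicit false

open Pool.Agent.Helper14.LK
open scoped ContDiff Topology
open MeasureTheory Set Filter

namespace Pool.Agent.Helper27.LK

theorem hPO0 (hPAR : StPAR) : StPO0 := by
  intro V _ _ _ α hα hcl
  have hα' : ContDiff ℝ ∞ (fun p : ℝ × V => α p.1 p.2) := hα
  let f : (ℝ × V) → ℝ → ℝ := fun p s => α p.1 (s • p.2) p.2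
  have hf : ContDiff ℝ ∞ (Function.uncurry f) := by
    have h1 : ContDiff ℝ ∞ (fun q : (ℝ × V) × ℝ => α q.1.1 (q.2 • q.1.2)) :=
      hα'.comp (by fun_prop : ContDiff ℝ ∞ (fun q : (ℝ × V) × ℝ => (q.1.1, q.2 • q.1.2)))
    exact h1.clm_apply (by fun_prop)
  obtain ⟨hs, hd⟩ := hPAR ℝ (ℝ × V) ℝ volume (Icc (0 : ℝ) 1) isCompact_Icc f hf
  refine ⟨fun t v => ∫ z in Icc (0 : ℝ) 1, f (t, v) z, hs, ?_⟩
  intro t v
  ext a
  have hαt : ContDiff ℝ ∞ (α t) :=
    hα'.comp (by fun_prop : ContDiff ℝ ∞ (fun w : V => (t, w)))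
  have hαd : Differentiable ℝ (α t) := hαt.differentiable (by simp)
  -- derivative of the integral in direction `(0, a)`
  have hin : ∀ (g : ℝ × V → ℝ), Differentiable ℝ g →
      fderiv ℝ (fun w => g (t, w)) v a = fderiv ℝ g (t, v) (0, a) := by
    intro g hg
    have h1 : HasFDerivAt (fun w : V => (t, w)) (ContinuousLinearMap.inr ℝ ℝ V) v :=
      hasFDerivAt_prodMk_right t v
    have h2 := ((hg (t, v)).hasFDerivAt.comp v h1).fderiv
    have h3 : fderiv ℝ (fun w => g (t, w)) v = (fderiv ℝ g (t, v)).comp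
        (ContinuousLinearMap.inr ℝ ℝ V) := h2
    rw [h3]
    simp
  have e1 : fderiv ℝ (fun w => ∫ z in Icc (0 : ℝ) 1, f (t, w) z) v a
      = ∫ z in Icc (0 : ℝ) 1, fderiv ℝ (fun q => f q z) (t, v) (0, a) := by
    rw [← hd (t, v) (0, a)]
    exact hin (fun p => ∫ z in Icc (0 : ℝ) 1, f p z) (hs.differentiable (by simp))
  have e2 : ∀ z : ℝ, fderiv ℝ (fun q => f q z) (t, v) (0, a)
      = z * fderiv ℝ (α t) (z • v) v a + α t (z • v) a := by
    intro z
    have hfz : Differentiable ℝ (fun q => f q z) := by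
      have : ContDiff ℝ ∞ (fun q : ℝ × V => f q z) :=
        hf.comp (by fun_prop : ContDiff ℝ ∞ (fun q : ℝ × V => (q, z)))
      exact this.differentiable (by simp)
    rw [← hin (fun q => f q z) hfz]
    have h1 : HasFDerivAt (fun w : V => α t (z • w))
        ((fderiv ℝ (α t) (z • v)).comp (z • ContinuousLinearMap.id ℝ V)) v := by
      have h2 : HasFDerivAt (fun w : V => z • w) (z • ContinuousLinearMap.id ℝ V) v :=
        (hasFDerivAt_id v).const_smul z
      exact (hαd (z • v)).hasFDerivAt.comp v h2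
    have h3 := (h1.clm_apply (hasFDerivAt_id v)).fderiv
    have h4 : fderiv ℝ (fun w : V => f (t, w) z) v a = z * fderiv ℝ (α t) (z • v) a v
        + α t (z • v) a := by
      have h5 : (fun w : V => f (t, w) z) = fun w : V => (α t (z • w)) (id w) := rfl
      rw [h5, h3]
      simp
      ring
    rw [h4, hcl t (z • v) a v]
  have e3 : ∀ z : ℝ, HasDerivAt (fun z : ℝ => z * α t (z • v) a)
      (z * fderiv ℝ (α t) (z • v) v a + α t (z • v) a) z := by
    intro z
    have h2 : HasDerivAt (fun z : ℝ => z • v) v z := by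
      simpa using (hasDerivAt_id z).smul_const v
    have h3 : HasDerivAt (fun z : ℝ => α t (z • v)) (fderiv ℝ (α t) (z • v) v) z :=
      (hαd (z • v)).hasFDerivAt.comp_hasDerivAt z h2
    have h4 : HasDerivAt (fun z : ℝ => α t (z • v) a) (fderiv ℝ (α t) (z • v) v a) z := by
      simpa using h3.clm_apply (hasDerivAt_const z a)
    have h5 := (hasDerivAt_id z).mul h4
    refine h5.congr_deriv ?_
    simp
    ring
  have hcont : Continuous (fun z : ℝ => z * fderiv ℝ (α t) (z • v) v a + α t (z • v) a) := by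
    have h1 : Continuous (fderiv ℝ (α t)) := hαt.continuous_fderiv (by simp)
    have h2 : Continuous (α t) := hαt.continuous
    fun_prop
  rw [e1]
  simp_rw [e2]
  rw [integral_Icc_eq_integral_Ioc, ← intervalIntegral.integral_of_le zero_le_one,
    intervalIntegral.integral_eq_sub_of_hasDerivAt (fun z _ => e3 z)
      (hcont.intervalIntegrable _ _)]
  simp

end Pool.Agent.Helper27.LK
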